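import Mathlib

/-!
# Theorem N of MP_3c1c82, module M3a: finitely generated groups which are central by finite modulo `R`
-/

set_option autoImplicit false

namespace Pool.Agent.helper24.RCN

open Subgroup

/-- a subgroup of a finitely generated abelian group is finitely generated -/
theorem sub_fg {C : Type*} [CommGroup C] [Group.FG C] (B : Subgroup C) : B.FG := by
  have h1 : AddGroup.FG (Additive C) := GroupFG.iff_add_fg.1 inferInstance
  have h2 : Module.Finite ℤ (Additive C) := Module.Finite.iff_addGroup_fg.2 h1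
  have h3 : IsNoetherian ℤ (Additive C) := inferInstance
  have h4 : (AddSubgroup.toIntSubmodule (Subgroup.toAddSubgroup B)).FG := IsNoetherian.noetherian _
  have h5 : (Subgroup.toAddSubgroup B).FG := by
    rw [Submodule.fg_iff_addSubgroup_fg] at h4
    exact h4
  exact (Subgroup.fg_iff_add_fg B).2 h5

theorem fg_map {G H : Type*} [Group G] [Group H] {A : Subgroup G} (hA : A.FG) (f : G →* H) : (A.map f).FG := by
  classical
  obtain ⟨T, hT⟩ := hA
  refine ⟨T.image f, ?_⟩
  rw [Finset.coe_image, ← MonoidHom.map_closure, hT]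

/-- a subgroup of a finitely generated abelian subgroup is finitely generated -/
theorem sub_fg' {G : Type*} [Group G] {A B : Subgroup G} (hA : A.FG) (hc : ∀ x ∈ A, ∀ y ∈ A, x * y = y * x)
    (hB : B ≤ A) : B.FG := by
  let _i : CommGroup A := { (inferInstance : Group A) with
    mul_comm := fun x y => Subtype.ext (hc x x.2 y y.2) }
  have : Group.FG A := (Group.fg_iff_subgroup_fg A).2 hA
  have h1 : (B.subgroupOf A).FG := sub_fg _
  have h2 : (B.subgroupOf A).map A.subtype = B := by
    rw [Subgroup.subgroupOf_map_subtype, inf_eq_left.2 hB]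
  rw [← h2]
  exact fg_map h1 _

theorem fp_lemma {G : Type*} [Group G] [hG : Group.FG G] (R : Subgroup G) [R.Normal]
    (hfin : (Subgroup.center (G ⧸ R)).FiniteIndex) :
    ∃ S : Set G, S.Finite ∧ R = Subgroup.normalClosure S := by
  classical
  obtain ⟨H, hH⟩ : ∃ H : Subgroup G, H = (Subgroup.center (G ⧸ R)).comap (QuotientGroup.mk' R) := ⟨_, rfl⟩
  have hHi : H.FiniteIndex := by
    refine ⟨?_⟩
    rw [hH, Subgroup.index_comap_of_surjective _ (QuotientGroup.mk'_surjective R)]
    exact hfin.index_ne_zero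
  have hHc : ∀ h ∈ H, ∀ g : G, h * g * h⁻¹ * g⁻¹ ∈ R := by
    intro h hh g
    rw [hH, Subgroup.mem_comap, Subgroup.mem_center_iff] at hh
    have h1 := hh (QuotientGroup.mk' R g)
    rw [← QuotientGroup.eq_one_iff]
    have h2 : ((h * g * h⁻¹ * g⁻¹ : G) : G ⧸ R) = (QuotientGroup.mk' R h) * (QuotientGroup.mk' R g) *
        (QuotientGroup.mk' R h)⁻¹ * (QuotientGroup.mk' R g)⁻¹ := rfl
    rw [h2, ← h1]
    group
  have hRH : R ≤ H := by
    intro r hr
    rw [hH, Subgroup.mem_comap]
    have h1 : QuotientGroup.mk' R r = 1 := by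
      rw [QuotientGroup.mk'_apply, QuotientGroup.eq_one_iff]
      exact hr
    rw [h1]
    exact one_mem _
  have hHfg : H.FG := (Group.fg_iff_subgroup_fg H).1 (Subgroup.fg_of_index_ne_zero H)
  obtain ⟨SH, hSH⟩ := hHfg
  obtain ⟨SG, hSG⟩ := (Group.fg_def.1 hG)
  obtain ⟨S0, hS0⟩ : ∃ S0 : Set G, S0 = (fun q : G × G => q.1 * q.2 * q.1⁻¹ * q.2⁻¹) '' ((SH : Set G) ×ˢ (SG : Set G)) :=
    ⟨_, rfl⟩
  have hS0f : S0.Finite := by
    rw [hS0]
    exact (SH.finite_toSet.prod SG.finite_toSet).image _
  obtain ⟨N, hN⟩ : ∃ N : Subgroup G, N = Subgroup.normalClosure S0 := ⟨_, rfl⟩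
  have hNn : N.Normal := by rw [hN]; infer_instance
  have hcomm : ∀ h ∈ H, ∀ g : G, QuotientGroup.mk' N h * QuotientGroup.mk' N g =
      QuotientGroup.mk' N g * QuotientGroup.mk' N h := by
    have h1 : ∀ h ∈ (SH : Set G), ∀ g : G, QuotientGroup.mk' N h * QuotientGroup.mk' N g =
        QuotientGroup.mk' N g * QuotientGroup.mk' N h := by
      intro h hh g
      have h2 : g ∈ Subgroup.closure (SG : Set G) := by rw [hSG]; exact Subgroup.mem_top g
      have h3 : Subgroup.closure (SG : Set G) ≤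
          (Subgroup.centralizer {QuotientGroup.mk' N h}).comap (QuotientGroup.mk' N) := by
        rw [Subgroup.closure_le]
        intro s hs
        rw [SetLike.mem_coe, Subgroup.mem_comap, Subgroup.mem_centralizer_singleton_iff]
        have h4 : h * s * h⁻¹ * s⁻¹ ∈ N := by
          rw [hN]
          apply Subgroup.subset_normalClosure
          rw [hS0]
          exact ⟨(h, s), ⟨hh, hs⟩, rfl⟩
        rw [← QuotientGroup.eq_one_iff] at h4
        have h5 : (QuotientGroup.mk' N h) * (QuotientGroup.mk' N s) *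
          (QuotientGroup.mk' N h)⁻¹ * (QuotientGroup.mk' N s)⁻¹ = 1 := h4
        have h6 := mul_inv_eq_one.1 h5
        exact (mul_inv_eq_iff_eq_mul.1 h6).symm
      have h4 := h3 h2
      rw [Subgroup.mem_comap, Subgroup.mem_centralizer_singleton_iff] at h4
      exact h4.symm
    intro h hh g
    rw [← hSH] at hh
    have h3 : Subgroup.closure (SH : Set G) ≤
        (Subgroup.centralizer {QuotientGroup.mk' N g}).comap (QuotientGroup.mk' N) := by
      rw [Subgroup.closure_le]
      intro s hs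
      rw [SetLike.mem_coe, Subgroup.mem_comap, Subgroup.mem_centralizer_singleton_iff]
      exact h1 s hs g
    have h4 := h3 hh
    rw [Subgroup.mem_comap, Subgroup.mem_centralizer_singleton_iff] at h4
    exact h4
  have hNR : N ≤ R := by
    rw [hN]
    apply Subgroup.normalClosure_le_normal
    rw [hS0]
    rintro _ ⟨⟨h, g⟩, ⟨hh, hg⟩, rfl⟩
    apply hHc
    rw [← hSH]
    exact Subgroup.subset_closure hh
  have hRfg : (R.map (QuotientGroup.mk' N)).FG := by
    refine sub_fg' (A := H.map (QuotientGroup.mk' N)) ?_ ?_ (Subgroup.map_mono hRH)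
    · exact fg_map (⟨SH, hSH⟩ : H.FG) _
    · rintro _ ⟨x, hx, rfl⟩ _ ⟨y, hy, rfl⟩
      exact hcomm x hx y
  obtain ⟨T', hT'⟩ := hRfg
  have hpre : ∀ t ∈ T', ∃ r ∈ R, QuotientGroup.mk' N r = t := by
    intro t ht
    have : t ∈ R.map (QuotientGroup.mk' N) := by
      rw [← hT']
      exact Subgroup.subset_closure ht
    exact this
  choose! f hf hf' using hpre
  refine ⟨S0 ∪ f '' (T' : Set (G ⧸ N)), hS0f.union (T'.finite_toSet.image f), le_antisymm ?_ ?_⟩
  · intro r hr
    have h1 : QuotientGroup.mk' N r ∈ Subgroup.closure (T' : Set (G ⧸ N)) := by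
      rw [hT']
      exact ⟨r, hr, rfl⟩
    have h2 : (T' : Set (G ⧸ N)) = (QuotientGroup.mk' N) '' (f '' (T' : Set (G ⧸ N))) := by
      ext t
      constructor
      · intro ht
        exact ⟨f t, ⟨t, ht, rfl⟩, hf' t ht⟩
      · rintro ⟨_, ⟨s, hs, rfl⟩, rfl⟩
        rw [hf' s hs]
        exact hs
    rw [h2, ← MonoidHom.map_closure] at h1
    obtain ⟨t, ht, ht'⟩ := h1
    have h3 : t⁻¹ * r ∈ N := by
      rw [← QuotientGroup.eq]
      exact ht'
    have h4 : t ∈ Subgroup.normalClosure (S0 ∪ f '' (T' : Set (G ⧸ N))) := by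
      have : Subgroup.closure (f '' (T' : Set (G ⧸ N))) ≤
          Subgroup.normalClosure (S0 ∪ f '' (T' : Set (G ⧸ N))) := by
        rw [Subgroup.closure_le]
        exact Set.subset_union_right.trans Subgroup.subset_normalClosure
      exact this ht
    have h5 : t⁻¹ * r ∈ Subgroup.normalClosure (S0 ∪ f '' (T' : Set (G ⧸ N))) := by
      have : N ≤ Subgroup.normalClosure (S0 ∪ f '' (T' : Set (G ⧸ N))) :=
        hN.le.trans (Subgroup.normalClosure_mono Set.subset_union_left)
      exact this h3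
    have := mul_mem h4 h5
    rwa [mul_inv_cancel_left] at this
  · apply Subgroup.normalClosure_le_normal
    rintro x (hx | ⟨t, ht, rfl⟩)
    · apply hNR
      rw [hN]
      exact Subgroup.subset_normalClosure hx
    · exact hf t ht

/-- a maximal normal subgroup below a nontrivial normal closure of a finite set -/
theorem chief_below {G : Type*} [Group G] {R : Subgroup G} {S : Set G} (hS : S.Finite)
    (hR : R = Subgroup.normalClosure S) (hne : R ≠ ⊥) :
    ∃ M : Subgroup G, M.Normal ∧ M < R ∧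
      ∀ N : Subgroup G, N.Normal → M ≤ N → N ≤ R → N = M ∨ N = R := by
  classical
  have hzorn : ∃ M : Subgroup G, ⊥ ≤ M ∧ Maximal (· ∈ {M : Subgroup G | M.Normal ∧ M < R}) M := by
    refine zorn_le_nonempty₀ {M : Subgroup G | M.Normal ∧ M < R} ?_ ⊥ ⟨inferInstance, bot_lt_iff_ne_bot.2 hne⟩
    intro c hc hchain y hy
    have hdir : DirectedOn (· ≤ ·) c := hchain.directedOn
    refine ⟨sSup c, ⟨?_, ?_⟩, fun z hz => le_sSup hz⟩
    · refine ⟨fun n hn g => ?_⟩
      rw [Subgroup.mem_sSup_of_directedOn ⟨y, hy⟩ hdir] at hn ⊢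
      obtain ⟨M, hM, hnM⟩ := hn
      exact ⟨M, hM, (hc hM).1.conj_mem n hnM g⟩
    · refine lt_of_le_of_ne (sSup_le fun M hM => (hc hM).2.le) ?_
      intro heq
      have h1 : ∀ T : Set G, T.Finite → T ⊆ R → ∃ M ∈ c, T ⊆ M := by
        intro T hT
        induction T, hT using Set.Finite.induction_on with
        | empty => exact fun _ => ⟨y, hy, Set.empty_subset _⟩
        | insert _ _ ih =>
          rename_i a T _ _
          intro hT
          obtain ⟨M, hM, hTM⟩ := ih ((Set.subset_insert _ _).trans hT)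
          have h2 : a ∈ sSup c := by
            rw [heq]
            exact hT (Set.mem_insert _ _)
          rw [Subgroup.mem_sSup_of_directedOn ⟨y, hy⟩ hdir] at h2
          obtain ⟨M', hM', haM'⟩ := h2
          obtain ⟨M'', hM'', h3, h4⟩ := hdir M hM M' hM'
          exact ⟨M'', hM'', Set.insert_subset (h4 haM') (hTM.trans h3)⟩
      obtain ⟨M, hM, hSM⟩ := h1 S hS (by rw [hR]; exact Subgroup.subset_normalClosure)
      have h2 : R ≤ M := by
        rw [hR]
        have := (hc hM).1
        exact Subgroup.normalClosure_le_normal hSM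
      exact absurd (hc hM).2 (not_lt_of_ge h2)
  obtain ⟨M, -, hM⟩ := hzorn
  refine ⟨M, hM.prop.1, hM.prop.2, fun N hN hMN hNR => ?_⟩
  rcases eq_or_lt_of_le hNR with h | h
  · exact Or.inr h
  · exact Or.inl (le_antisymm (hM.le_of_ge ⟨hN, h⟩ hMN) hMN)

/-- module M3a in the form of the stub -/
theorem fp_lemma' {G : Type} [Group G] (hfg : Group.FG G) {R : Subgroup G} [R.Normal]
    (hc : (Subgroup.center (G ⧸ R)).FiniteIndex) : ∃ s : Finset G, Subgroup.normalClosure (s : Set G) = R := by
  classical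
  obtain ⟨S, hS, h⟩ := fp_lemma (hG := hfg) R hc
  exact ⟨hS.toFinset, by rw [Set.Finite.coe_toFinset]; exact h.symm⟩

/-- module M3c in the form of the stub -/
theorem exists_chief {G : Type} [Group G] {R : Subgroup G} (hR : R ≠ ⊥) {s : Finset G}
    (hs : Subgroup.normalClosure (s : Set G) = R) :
    ∃ M : Subgroup G, M.Normal ∧ M ≤ R ∧ M ≠ R ∧
      ∀ N : Subgroup G, N.Normal → M ≤ N → N ≤ R → N = M ∨ N = R := by
  obtain ⟨M, h1, h2, h3⟩ := chief_below s.finite_toSet hs.symm hR
  exact ⟨M, h1, h2.le, h2.ne, h3⟩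

end Pool.Agent.helper24.RCN
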